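import Pool.Agent.helper58.CRO.SpecG

/-!
# MP_5bf3c3_gt, row cro:GC3: the lower bound for `n = 3`
-/

set_option autoImplicit false

open scoped Manifold ContDiff Topology ENNReal
open MeasureTheory Set Bundle Filter

noncomputable section

namespace Pool.Agent.CRO

theorem GC3 (h1 : GF3_stmt.{0}) (h2 : GDD_stmt.{0}) (h3 : RAT_stmt) : GC3_stmt := by
  refine le_sInf ?_
  rintro c ⟨M, i1, i2, i3, i4, i5, i6, g, m, r, hr, hinj, rfl⟩
  have hpos : 0 < sphereVol 3 := (h3 3).2.1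
  have hA : 0 ≤ 9 / 10 * (sphereVol 3 / Real.pi ^ 3) := by positivity
  have hc0 : 0 ≤ 9 / 10 * (sphereVol 3 / 2) * (2 / Real.pi) ^ 3 := by positivity
  have key := h2 3 (by norm_num) M g (9 / 10 * (sphereVol 3 / 2) * (2 / Real.pi) ^ 3) hc0
    (fun m s hs hsi => by
      have e1 := h1 M g m s hs hsi
      have e2 : 9 / 10 * (sphereVol 3 / 2 * (2 * s / Real.pi) ^ 3) =
          9 / 10 * (sphereVol 3 / 2) * (2 / Real.pi) ^ 3 * s ^ 3 := by ring
      rw [e2] at e1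
      exact e1) m r hr hinj
  have hr3 : 0 < r ^ 3 := pow_pos hr 3
  rw [ENNReal.le_div_iff_mul_le (Or.inl (ENNReal.ofReal_pos.2 hr3).ne')
    (Or.inl ENNReal.ofReal_ne_top), ← ENNReal.ofReal_mul hA]
  have e3 : 9 / 10 * (sphereVol 3 / Real.pi ^ 3) * r ^ 3 =
      2 * (9 / 10 * (sphereVol 3 / 2) * (2 / Real.pi) ^ 3) * (r / 2) ^ 3 := by ring
  rw [e3]
  exact key

end Pool.Agent.CRO
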