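import Pool.Agent.helper58.CRO.SpecI

open scoped ENNReal
open MeasureTheory Set

noncomputable section

namespace Pool.Agent.CRO

theorem ISL_norm (m : ℕ) (y : Fin (m + 1) → ℝ) :
    Real.sqrt (‖(WithLp.toLp 2 y : En (m + 1))‖ ^ 2 - (y 0) ^ 2) =
      ‖(WithLp.toLp 2 (fun i : Fin m => y (Fin.succ i)) : En m)‖ := by
  rw [EuclideanSpace.norm_eq, EuclideanSpace.norm_eq, Real.sq_sqrt (by positivity)]
  congr 1
  rw [Fin.sum_univ_succ]
  simp

theorem ISL : ISL_stmt := by
  intro m e he F hF
  have hcard : Module.finrank ℝ (En (m + 1)) = Fintype.card (Fin (m + 1)) := by simp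
  have horth : Orthonormal ℝ (Set.domRestrict ({0} : Set (Fin (m + 1))) (fun _ => e)) := by
    constructor
    · intro i
      exact he
    · intro i j hij
      exfalso
      apply hij
      apply Subsingleton.elim
  obtain ⟨b, hb⟩ := horth.exists_orthonormalBasis_extension_of_card_eq hcard
  have hb0 : b 0 = e := hb 0 (by simp)
  set f : (Fin (m + 1) → ℝ) → ℝ≥0∞ := fun y =>
    F (y 0) ‖(WithLp.toLp 2 (fun i : Fin m => y (Fin.succ i)) : En m)‖ with hf
  set g : ℝ × (Fin m → ℝ) → ℝ≥0∞ := fun p =>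
    F p.1 ‖(WithLp.toLp 2 p.2 : En m)‖ with hg
  have hgm : Measurable g := by
    have h1 : Measurable (fun p : ℝ × (Fin m → ℝ) => (p.1, ‖(WithLp.toLp 2 p.2 : En m)‖)) := by
      refine measurable_fst.prodMk ?_
      refine Measurable.norm ?_
      exact (PiLp.volume_preserving_toLp (Fin m)).measurable.comp measurable_snd
    exact hF.comp h1
  have hfm : Measurable f := by
    have h1 : Measurable (fun y : Fin (m + 1) → ℝ =>
        (y 0, ‖(WithLp.toLp 2 (fun i : Fin m => y (Fin.succ i)) : En m)‖)) := by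
      refine (measurable_pi_apply 0).prodMk ?_
      refine Measurable.norm ?_
      refine (PiLp.volume_preserving_toLp (Fin m)).measurable.comp ?_
      exact measurable_pi_lambda _ (fun i => measurable_pi_apply _)
    exact hF.comp h1
  have e1 : ∀ q : En (m + 1),
      F (inner ℝ e q) (Real.sqrt (‖q‖ ^ 2 - (inner ℝ e q) ^ 2)) =
        f ((WithLp.ofLp (b.repr q))) := by
    intro q
    have h0 : (inner ℝ e q : ℝ) = (b.repr q) 0 := by
      rw [b.repr_apply_apply, hb0]
    have hn : ‖q‖ = ‖b.repr q‖ := (b.repr.norm_map q).symm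
    rw [h0, hn]
    simp only [hf]
    congr 1
    have := ISL_norm m (WithLp.ofLp (b.repr q))
    simpa using this
  calc ∫⁻ q : En (m + 1), F (inner ℝ e q) (Real.sqrt (‖q‖ ^ 2 - (inner ℝ e q) ^ 2))
      = ∫⁻ q : En (m + 1), f ((WithLp.ofLp (b.repr q))) := lintegral_congr e1
    _ = ∫⁻ p : En (m + 1), f (WithLp.ofLp p) := by
        refine b.measurePreserving_repr.lintegral_comp (f := fun p => f (WithLp.ofLp p)) ?_
        exact hfm.comp (PiLp.volume_preserving_ofLp (Fin (m + 1))).measurable
    _ = ∫⁻ y : Fin (m + 1) → ℝ, f y :=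
        (PiLp.volume_preserving_ofLp (Fin (m + 1))).lintegral_comp hfm
    _ = ∫⁻ p : ℝ × (Fin m → ℝ), g p := by
        have h := (volume_preserving_piFinSuccAbove (fun _ : Fin (m + 1) => ℝ) 0).lintegral_comp hgm
        rw [← h]
        rfl
    _ = ∫⁻ t : ℝ, ∫⁻ y : Fin m → ℝ, g (t, y) := by
        rw [Measure.volume_eq_prod, lintegral_prod _ hgm.aemeasurable]
    _ = ∫⁻ t : ℝ, ∫⁻ y : En m, F t ‖y‖ := by
        refine lintegral_congr (fun t => ?_)
        have hm : Measurable (fun y : En m => F t ‖y‖) := by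
          have : Measurable (fun y : En m => (t, ‖y‖)) := measurable_const.prodMk measurable_norm
          exact hF.comp this
        exact (PiLp.volume_preserving_toLp (Fin m)).lintegral_comp hm

end Pool.Agent.CRO
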