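import Pool.Agent.helper58.CRO.SpecJ

/-!
# MP_5bf3c3_gt, row cro:JOM: mixture over `Ω`
-/

set_option autoImplicit false

open scoped Manifold ContDiff Topology ENNReal
open MeasureTheory Set

noncomputable section

namespace Pool.Agent.CRO

theorem JOM_cont (n : ℕ) (hn : 2 ≤ n) :
    Continuous (fun x : ℝ => (1 - yh n x) ^ (((n : ℝ) + 1) / ((n : ℝ) - 1))) := by
  have hn' : (2 : ℝ) ≤ n := by exact_mod_cast hn
  have hp : 0 ≤ ((n : ℝ) + 1) / ((n : ℝ) - 1) := div_nonneg (by linarith) (by linarith)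
  have h1 : Continuous (fun x : ℝ => 1 - yh n x) := by
    unfold yh
    fun_prop
  exact h1.rpow_const fun x => Or.inr hp

theorem JOM_one (hYH : JYH_stmt) (n : ℕ) (hn : 2 ≤ n) (Ω0 Ωm l : ℝ) (h0 : 0 < Ω0) (hm : Ω0 ≤ Ωm)
    (hl : 0 < l) :
    (Ωm ^ (n - 1) - Ω0 ^ (n - 1)) / ((n : ℝ) - 1) - l ^ (n - 1) * ll n ≤
      ∫ Ω in Ω0..Ωm, Ω ^ (n - 2) * (1 - yh n (Ω / l)) ^ (((n : ℝ) + 1) / ((n : ℝ) - 1)) := by
  obtain ⟨hy1, hy2, -, -⟩ := hYH n hn
  have hn' : (2 : ℝ) ≤ n := by exact_mod_cast hn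
  have hp : 0 ≤ ((n : ℝ) + 1) / ((n : ℝ) - 1) := div_nonneg (by linarith) (by linarith)
  have hcont := JOM_cont n hn
  set p := ((n : ℝ) + 1) / ((n : ℝ) - 1) with hpdef
  have hcl : Continuous (fun Ω : ℝ => (1 - yh n (Ω / l)) ^ p) := hcont.comp (by fun_prop)
  have hH : Continuous (fun Ω : ℝ => Ω ^ (n - 2) * (1 - (1 - yh n (Ω / l)) ^ p)) := by
    have : Continuous (fun Ω : ℝ => Ω ^ (n - 2)) := by fun_prop
    exact this.mul (continuous_const.sub hcl)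
  -- the decomposition
  have e1 : ∫ Ω in Ω0..Ωm, Ω ^ (n - 2) * (1 - yh n (Ω / l)) ^ p =
      (∫ Ω in Ω0..Ωm, Ω ^ (n - 2)) - ∫ Ω in Ω0..Ωm, Ω ^ (n - 2) * (1 - (1 - yh n (Ω / l)) ^ p) := by
    rw [← intervalIntegral.integral_sub ((continuous_pow _).intervalIntegrable _ _)
      (hH.intervalIntegrable _ _)]
    refine intervalIntegral.integral_congr fun x _ => ?_
    show x ^ (n - 2) * (1 - yh n (x / l)) ^ p = x ^ (n - 2) - x ^ (n - 2) * (1 - (1 - yh n (x / l)) ^ p)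
    ring
  have e2 : ∫ Ω in Ω0..Ωm, Ω ^ (n - 2) = (Ωm ^ (n - 1) - Ω0 ^ (n - 1)) / ((n : ℝ) - 1) := by
    rw [integral_pow]
    have h1 : n - 2 + 1 = n - 1 := by omega
    have h2 : ((n - 2 : ℕ) : ℝ) + 1 = (n : ℝ) - 1 := by
      rw [Nat.cast_sub hn]
      push_cast
      ring
    rw [h1, h2]
  have e3 : ∫ Ω in Ω0..Ωm, Ω ^ (n - 2) * (1 - (1 - yh n (Ω / l)) ^ p) ≤
      ∫ Ω in (0 : ℝ)..(max Ωm l), Ω ^ (n - 2) * (1 - (1 - yh n (Ω / l)) ^ p) := by
    refine intervalIntegral.integral_mono_interval h0.le hm (le_max_left _ _) ?_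
      (hH.intervalIntegrable _ _)
    refine (ae_restrict_iff' measurableSet_Ioc).2 (Filter.Eventually.of_forall fun x hx => ?_)
    obtain ⟨h1, h2⟩ := hy1 (x / l) (div_pos hx.1 hl)
    have h3 : (1 - yh n (x / l)) ^ p ≤ 1 := Real.rpow_le_one (by linarith) (by linarith) hp
    exact mul_nonneg (pow_nonneg hx.1.le _) (by linarith)
  have e4 : ∫ Ω in (0 : ℝ)..(max Ωm l), Ω ^ (n - 2) * (1 - (1 - yh n (Ω / l)) ^ p) =
      ∫ Ω in (0 : ℝ)..l, Ω ^ (n - 2) * (1 - (1 - yh n (Ω / l)) ^ p) := by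
    rw [← intervalIntegral.integral_add_adjacent_intervals (hH.intervalIntegrable 0 l)
      (hH.intervalIntegrable l (max Ωm l))]
    have h1 : ∫ Ω in l..(max Ωm l), Ω ^ (n - 2) * (1 - (1 - yh n (Ω / l)) ^ p) = 0 := by
      rw [← intervalIntegral.integral_zero (a := l) (b := max Ωm l)]
      refine intervalIntegral.integral_congr fun x hx => ?_
      rw [uIcc_of_le (le_max_right _ _)] at hx
      show x ^ (n - 2) * (1 - (1 - yh n (x / l)) ^ p) = 0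
      rw [hy2 (x / l) ((one_le_div hl).2 hx.1), sub_zero, Real.one_rpow, sub_self, mul_zero]
    rw [h1, add_zero]
  have e5 : ∫ Ω in (0 : ℝ)..l, Ω ^ (n - 2) * (1 - (1 - yh n (Ω / l)) ^ p) = l ^ (n - 1) * ll n := by
    have h1 : (fun Ω : ℝ => Ω ^ (n - 2) * (1 - (1 - yh n (Ω / l)) ^ p)) =
        fun Ω : ℝ => l ^ (n - 2) * ((fun x : ℝ => x ^ (n - 2) * (1 - (1 - yh n x) ^ p)) (Ω / l)) := by
      funext x
      show x ^ (n - 2) * (1 - (1 - yh n (x / l)) ^ p) =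
        l ^ (n - 2) * ((x / l) ^ (n - 2) * (1 - (1 - yh n (x / l)) ^ p))
      rw [div_pow, ← mul_assoc, mul_div_cancel₀ _ (pow_ne_zero _ hl.ne')]
    rw [h1, intervalIntegral.integral_const_mul,
      intervalIntegral.integral_comp_div (fun x : ℝ => x ^ (n - 2) * (1 - (1 - yh n x) ^ p)) hl.ne',
      zero_div, div_self hl.ne', smul_eq_mul, ← mul_assoc]
    have h2 : l ^ (n - 2) * l = l ^ (n - 1) := by
      rw [← pow_succ]
      congr 1
      omega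
    rw [h2]
    rfl
  rw [e1, e2]
  linarith

theorem JOM (h1 : JML_stmt) (h2 : JVL_stmt) (h3 : JYH_stmt) (h4 : JNU_stmt) : JOM_stmt := by
  intro n r0 𝒢 L R hn hE hLen hR hRr h2R Ωm hΩm
  have hn' : (2 : ℝ) ≤ n := by exact_mod_cast hn
  obtain ⟨-, -, hkap, -⟩ := h4 n hn
  obtain ⟨⟨c, C, hc, hC, hvv⟩, hVV⟩ := h2 n r0 𝒢 R hn hR hRr
  have hom : 0 < (n : ℝ) * kap n := by positivity
  -- the inequality with the two parameters
  have key : ∀ δ : ℝ, 0 < δ → δ ≤ Ωm →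
      R * (Ωm ^ (n - 1) - δ ^ (n - 1)) / ((n : ℝ) - 1) - ll n * VV 𝒢 R / (n * kap n) ≤
        Real.pi / 2 * Ωm ^ n / n + δ * Ωm ^ (n - 1) / ((n : ℝ) - 1) := by
    intro δ hδ hδm
    obtain ⟨N, hN, hNb⟩ := h1 n r0 𝒢 L R hn hE hLen hR hRr h2R δ Ωm δ hδ hδm hδ
    have hN' : (0 : ℝ) < N := by exact_mod_cast hN
    have hRN : 0 < R / N := div_pos hR hN'
    have hvpos : ∀ j ∈ Finset.Icc 1 N, 0 < vv 𝒢 R N j := by
      intro j hj
      have hj1 : (0 : ℝ) < j := by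
        have := (Finset.mem_Icc.1 hj).1
        exact_mod_cast this
      exact lt_of_lt_of_le (by positivity) (hvv N j hN hj).1
    have hlpos : ∀ j ∈ Finset.Icc 1 N, 0 < lj 𝒢 R N j := by
      intro j hj
      unfold lj
      exact Real.rpow_pos_of_pos (div_pos (hvpos j hj) (mul_pos hRN hom)) _
    have hlpow : ∀ j ∈ Finset.Icc 1 N, R / N * lj 𝒢 R N j ^ (n - 1) = vv 𝒢 R N j / (n * kap n) := by
      intro j hj
      have e1 : lj 𝒢 R N j ^ (n - 1) = vv 𝒢 R N j / (R / N * (n * kap n)) := by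
        unfold lj
        have e2 : (1 : ℝ) / ((n : ℝ) - 1) = (((n - 1 : ℕ) : ℝ))⁻¹ := by
          rw [Nat.cast_sub (by omega)]
          push_cast
          rw [one_div]
        rw [e2, Real.rpow_inv_natCast_pow (div_pos (hvpos j hj) (mul_pos hRN hom)).le (by omega)]
      rw [e1]
      field_simp
    have hcj : ∀ j, Continuous (fun Ω : ℝ =>
        (1 - yh n (Ω / lj 𝒢 R N j)) ^ (((n : ℝ) + 1) / ((n : ℝ) - 1))) := fun j =>
      (JOM_cont n hn).comp (by fun_prop)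
    -- integrate
    have hint : ∫ Ω in δ..Ωm, Ω ^ (n - 2) * ∑ j ∈ Finset.Icc 1 N, R / N *
          (1 - yh n (Ω / lj 𝒢 R N j)) ^ (((n : ℝ) + 1) / ((n : ℝ) - 1)) ≤
        ∫ Ω in δ..Ωm, Ω ^ (n - 2) * (Real.pi / 2 * Ω + δ) := by
      refine intervalIntegral.integral_mono_on hδm ?_ ?_ fun x hx => ?_
      · refine Continuous.intervalIntegrable ?_ _ _
        exact (continuous_pow _).mul (continuous_finsetSum _ fun j _ => continuous_const.mul (hcj j))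
      · exact Continuous.intervalIntegrable (by fun_prop) _ _
      · exact mul_le_mul_of_nonneg_left (hNb x hx) (pow_nonneg (hδ.le.trans hx.1) _)
    have hleft : ∫ Ω in δ..Ωm, Ω ^ (n - 2) * ∑ j ∈ Finset.Icc 1 N, R / N *
          (1 - yh n (Ω / lj 𝒢 R N j)) ^ (((n : ℝ) + 1) / ((n : ℝ) - 1)) =
        ∑ j ∈ Finset.Icc 1 N, R / N * ∫ Ω in δ..Ωm, Ω ^ (n - 2) *
          (1 - yh n (Ω / lj 𝒢 R N j)) ^ (((n : ℝ) + 1) / ((n : ℝ) - 1)) := by
      have e1 : ∀ Ω : ℝ, Ω ^ (n - 2) * ∑ j ∈ Finset.Icc 1 N, R / N *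
          (1 - yh n (Ω / lj 𝒢 R N j)) ^ (((n : ℝ) + 1) / ((n : ℝ) - 1)) =
          ∑ j ∈ Finset.Icc 1 N, R / N * (Ω ^ (n - 2) *
            (1 - yh n (Ω / lj 𝒢 R N j)) ^ (((n : ℝ) + 1) / ((n : ℝ) - 1))) := by
        intro Ω
        rw [Finset.mul_sum]
        exact Finset.sum_congr rfl fun j _ => by ring
      simp only [e1]
      rw [intervalIntegral.integral_finsetSum]
      · exact Finset.sum_congr rfl fun j _ => intervalIntegral.integral_const_mul _ _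
      · intro j _
        refine Continuous.intervalIntegrable ?_ _ _
        exact continuous_const.mul ((continuous_pow _).mul (hcj j))
    have hge : ∑ j ∈ Finset.Icc 1 N, R / N * ((Ωm ^ (n - 1) - δ ^ (n - 1)) / ((n : ℝ) - 1) -
          lj 𝒢 R N j ^ (n - 1) * ll n) ≤
        ∑ j ∈ Finset.Icc 1 N, R / N * ∫ Ω in δ..Ωm, Ω ^ (n - 2) *
          (1 - yh n (Ω / lj 𝒢 R N j)) ^ (((n : ℝ) + 1) / ((n : ℝ) - 1)) :=
      Finset.sum_le_sum fun j hj => mul_le_mul_of_nonneg_left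
        (JOM_one h3 n hn δ Ωm _ hδ hδm (hlpos j hj)) hRN.le
    have hsum : ∑ j ∈ Finset.Icc 1 N, R / N * ((Ωm ^ (n - 1) - δ ^ (n - 1)) / ((n : ℝ) - 1) -
          lj 𝒢 R N j ^ (n - 1) * ll n) =
        R * (Ωm ^ (n - 1) - δ ^ (n - 1)) / ((n : ℝ) - 1) - ll n * VV 𝒢 R / (n * kap n) := by
      have e1 : ∀ j ∈ Finset.Icc 1 N, R / N * ((Ωm ^ (n - 1) - δ ^ (n - 1)) / ((n : ℝ) - 1) -
          lj 𝒢 R N j ^ (n - 1) * ll n) =
          R / N * ((Ωm ^ (n - 1) - δ ^ (n - 1)) / ((n : ℝ) - 1)) -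
            vv 𝒢 R N j * (ll n / (n * kap n)) := by
        intro j hj
        have e2 := hlpow j hj
        calc R / N * ((Ωm ^ (n - 1) - δ ^ (n - 1)) / ((n : ℝ) - 1) - lj 𝒢 R N j ^ (n - 1) * ll n)
            = R / N * ((Ωm ^ (n - 1) - δ ^ (n - 1)) / ((n : ℝ) - 1)) -
              (R / N * lj 𝒢 R N j ^ (n - 1)) * ll n := by ring
          _ = _ := by
            rw [e2]
            ring
      rw [Finset.sum_congr rfl e1, Finset.sum_sub_distrib, ← Finset.sum_mul, ← Finset.sum_mul, hVV N hN,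
        Finset.sum_const, Nat.card_Icc, nsmul_eq_mul, Nat.add_sub_cancel]
      field_simp
    have hright : ∫ Ω in δ..Ωm, Ω ^ (n - 2) * (Real.pi / 2 * Ω + δ) ≤
        Real.pi / 2 * Ωm ^ n / n + δ * Ωm ^ (n - 1) / ((n : ℝ) - 1) := by
      have e1 : ∀ Ω : ℝ, Ω ^ (n - 2) * (Real.pi / 2 * Ω + δ) =
          Real.pi / 2 * Ω ^ (n - 1) + δ * Ω ^ (n - 2) := by
        intro Ω
        have e2 : Ω ^ (n - 1) = Ω ^ (n - 2) * Ω := by
          rw [← pow_succ]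
          congr 1
          omega
        rw [e2]
        ring
      simp only [e1]
      rw [intervalIntegral.integral_add (Continuous.intervalIntegrable (by fun_prop) _ _)
        (Continuous.intervalIntegrable (by fun_prop) _ _), intervalIntegral.integral_const_mul,
        intervalIntegral.integral_const_mul, integral_pow, integral_pow]
      have e3 : n - 1 + 1 = n := by omega
      have e4 : n - 2 + 1 = n - 1 := by omega
      have e5 : ((n - 2 : ℕ) : ℝ) + 1 = (n : ℝ) - 1 := by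
        rw [Nat.cast_sub hn]
        push_cast
        ring
      have e6 : ((n - 1 : ℕ) : ℝ) + 1 = (n : ℝ) := by
        rw [Nat.cast_sub (by omega)]
        push_cast
        ring
      rw [e3, e4, e5, e6]
      have e7 : (Ωm ^ n - δ ^ n) / (n : ℝ) ≤ Ωm ^ n / n :=
        div_le_div_of_nonneg_right (by linarith [pow_nonneg hδ.le n]) (by positivity)
      have e8 : (Ωm ^ (n - 1) - δ ^ (n - 1)) / ((n : ℝ) - 1) ≤ Ωm ^ (n - 1) / ((n : ℝ) - 1) :=
        div_le_div_of_nonneg_right (by linarith [pow_nonneg hδ.le (n - 1)]) (by linarith)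
      have e9 := mul_le_mul_of_nonneg_left e7 (show 0 ≤ Real.pi / 2 by positivity)
      have e10 := mul_le_mul_of_nonneg_left e8 hδ.le
      calc Real.pi / 2 * ((Ωm ^ n - δ ^ n) / (n : ℝ)) +
            δ * ((Ωm ^ (n - 1) - δ ^ (n - 1)) / ((n : ℝ) - 1))
          ≤ Real.pi / 2 * (Ωm ^ n / n) + δ * (Ωm ^ (n - 1) / ((n : ℝ) - 1)) := add_le_add e9 e10
        _ = _ := by ring
    linarith
  -- the limit
  set F : ℝ → ℝ := fun δ => R * (Ωm ^ (n - 1) - δ ^ (n - 1)) / ((n : ℝ) - 1) -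
    ll n * VV 𝒢 R / (n * kap n) - (Real.pi / 2 * Ωm ^ n / n + δ * Ωm ^ (n - 1) / ((n : ℝ) - 1)) with hF
  have hFc : Continuous F := by
    rw [hF]
    fun_prop
  have hF0 : F 0 ≤ 0 := by
    have ht : Filter.Tendsto F (𝓝[>] (0 : ℝ)) (𝓝 (F 0)) :=
      hFc.continuousAt.tendsto.mono_left nhdsWithin_le_nhds
    refine le_of_tendsto ht ?_
    filter_upwards [Ioc_mem_nhdsGT hΩm] with δ hδ
    have := key δ hδ.1 hδ.2
    show R * (Ωm ^ (n - 1) - δ ^ (n - 1)) / ((n : ℝ) - 1) -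
      ll n * VV 𝒢 R / (n * kap n) - (Real.pi / 2 * Ωm ^ n / n + δ * Ωm ^ (n - 1) / ((n : ℝ) - 1)) ≤ 0
    linarith
  have hF0' : F 0 = R * Ωm ^ (n - 1) / ((n : ℝ) - 1) - ll n * VV 𝒢 R / (n * kap n) -
      Real.pi / 2 * Ωm ^ n / n := by
    show R * (Ωm ^ (n - 1) - 0 ^ (n - 1)) / ((n : ℝ) - 1) -
      ll n * VV 𝒢 R / (n * kap n) - (Real.pi / 2 * Ωm ^ n / n + 0 * Ωm ^ (n - 1) / ((n : ℝ) - 1)) = _
    rw [zero_pow (by omega)]
    ring
  linarith

end Pool.Agent.CRO
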