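import Pool.Agent.helper58.CRO.SpecA

/-!
# Row `cro:MNK`
-/

open scoped Manifold ContDiff Topology ENNReal
open MeasureTheory Set

noncomputable section

namespace Pool.Agent.CRO

/-- `A ↦ ⟨A v, w⟩` -/
def MNK_in {n : ℕ} (v w : En n) : (En n →L[ℝ] En n) →L[ℝ] ℝ :=
  (innerSL ℝ w).comp (ContinuousLinearMap.apply ℝ (En n) v)

theorem MNK_in_apply {n : ℕ} (v w : En n) (A : En n →L[ℝ] En n) :
    MNK_in v w A = inner ℝ (A v) w := by
  show inner ℝ w (A v) = inner ℝ (A v) w
  exact real_inner_comm _ _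

/-- `A ↦ tr (A B)` -/
def MNK_tr {n : ℕ} (B : En n →L[ℝ] En n) : (En n →L[ℝ] En n) →L[ℝ] ℝ :=
  LinearMap.toContinuousLinearMap
    { toFun := fun A => LinearMap.trace ℝ (En n) ((A.comp B : En n →L[ℝ] En n) :
        En n →ₗ[ℝ] En n)
      map_add' := fun A A' => by
        rw [ContinuousLinearMap.add_comp, ContinuousLinearMap.toLinearMap_add, map_add]
      map_smul' := fun c A => by
        rw [ContinuousLinearMap.smul_comp, ContinuousLinearMap.toLinearMap_smul, map_smul,
          RingHom.id_apply] }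

theorem MNK_tr_apply {n : ℕ} (B A : En n →L[ℝ] En n) :
    MNK_tr B A = LinearMap.trace ℝ (En n) ((A.comp B : En n →L[ℝ] En n) : En n →ₗ[ℝ] En n) := rfl

theorem MNK (h1 : MKT_stmt) : MNK_stmt := by
  intro n hn s t Q hst hQ hpd
  have hn0 : (0 : ℝ) < n := by exact_mod_cast hn
  have hint : IntervalIntegrable Q volume s t := hQ.intervalIntegrable_of_Icc hst.le
  have hcomm : ∀ L : (En n →L[ℝ] En n) →L[ℝ] ℝ, ∫ r in s..t, L (Q r) = L (∫ r in s..t, Q r) :=
    fun L => L.intervalIntegral_comp_comm hint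
  have hLint : ∀ L : (En n →L[ℝ] En n) →L[ℝ] ℝ,
      IntervalIntegrable (fun r => L (Q r)) volume s t := fun L =>
    ContinuousOn.intervalIntegrable_of_Icc hst.le (L.continuous.comp_continuousOn hQ)
  have hS : PosDefOp (∫ r in s..t, Q r) := by
    constructor
    · intro v w
      rw [← MNK_in_apply v w, ← hcomm, real_inner_comm, ← MNK_in_apply w v, ← hcomm]
      apply intervalIntegral.integral_congr
      intro r hr
      rw [uIcc_of_le hst.le] at hr
      show MNK_in v w (Q r) = MNK_in w v (Q r)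
      rw [MNK_in_apply, MNK_in_apply, (hpd r hr).1 v w, real_inner_comm]
    · intro v hv
      rw [← MNK_in_apply v v, ← hcomm]
      apply intervalIntegral.intervalIntegral_pos_of_pos_on (hLint _) _ hst
      intro r hr
      rw [MNK_in_apply]
      exact (hpd r (Ioo_subset_Icc_self hr)).2 v hv
  obtain ⟨B, hB1, hB2⟩ := h1 n hn _ hS
  have hdetc : ContinuousOn (fun r => (Q r).det ^ ((1 : ℝ) / n)) (Icc s t) := by
    apply ContinuousOn.rpow_const (ContinuousLinearMap.continuous_det.comp_continuousOn hQ)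
    intro r _
    right
    positivity
  have hmono : ∫ r in s..t, (Q r).det ^ ((1 : ℝ) / n) ≤
      ∫ r in s..t, (1 / (n : ℝ)) * MNK_tr B (Q r) := by
    apply intervalIntegral.integral_mono_on hst.le
      (ContinuousOn.intervalIntegrable_of_Icc hst.le hdetc) ((hLint _).const_mul _)
    intro r hr
    have h2 := hB2 (Q r) (hpd r hr)
    rw [← MNK_tr_apply] at h2
    calc (Q r).det ^ ((1 : ℝ) / n) = 1 / (n : ℝ) * ((n : ℝ) * (Q r).det ^ ((1 : ℝ) / n)) := by
          field_simp
      _ ≤ 1 / (n : ℝ) * MNK_tr B (Q r) := mul_le_mul_of_nonneg_left h2 (by positivity)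
  rw [intervalIntegral.integral_const_mul, hcomm, MNK_tr_apply, ← hB1] at hmono
  have h3 : 1 / (n : ℝ) * ((n : ℝ) * (∫ r in s..t, Q r).det ^ ((1 : ℝ) / n)) =
      (∫ r in s..t, Q r).det ^ ((1 : ℝ) / n) := by
    field_simp
  rw [h3] at hmono
  exact hmono

end Pool.Agent.CRO
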